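import Mathlib

/-! # [H2 AA SNG] At most `(2 n)^2` members of a pencil `F + τ` with irreducible leading form are singular

`φ = f(T,1)`, `f` the part of degree `n` of `F`; `f_x(T,1) = φ'`, `f_y(T,1) = n φ - T φ'` are coprime of degree `n - 1`, `≤ n - 1`.
So the forms of degree `≥ 2 (n-1) - 1` are combinations of `f_x, f_y`, modulo `(F_x, F_y)` every polynomial is one of smaller degree, and
`ℂ[x,y]/(F_x,F_y)` has dimension at most `(2 n)^2`. The critical values are zeros of the minimal polynomial of `F` in this ring. -/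

namespace Pool.Agent.H2.AA

open MvPolynomial

/-- `G(T,1)` -/
noncomputable def dh {K : Type} [CommRing K] (G : MvPolynomial (Fin 2) K) : Polynomial K :=
  aeval ![Polynomial.X, 1] G

theorem dh_pderiv {K : Type} [CommRing K] (G : MvPolynomial (Fin 2) K) :
    dh (pderiv 0 G) = Polynomial.derivative (dh G) := by
  unfold dh
  induction G using MvPolynomial.induction_on with
  | C a =>
    rw [pderiv_C, map_zero, aeval_C]
    simp
  | add p q hp hq => rw [map_add, map_add, map_add, map_add, hp, hq]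
  | mul_X p i hp =>
    rw [pderiv_mul, map_add, map_mul, map_mul, map_mul, hp, Polynomial.derivative_mul, aeval_X]
    congr 1
    fin_cases i
    · simp
    · simp

theorem dh_euler {K : Type} [CommRing K] {n : ℕ} {f : MvPolynomial (Fin 2) K} (hf : f.IsHomogeneous n) :
    dh (pderiv 1 f) = (n : Polynomial K) * dh f - Polynomial.X * Polynomial.derivative (dh f) := by
  have h := congrArg dh hf.sum_X_mul_pderiv
  rw [Fin.sum_univ_two, nsmul_eq_mul] at h
  have e1 : dh (X 0 * pderiv 0 f + X 1 * pderiv 1 f) = Polynomial.X * Polynomial.derivative (dh f) + dh (pderiv 1 f) := by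
    rw [← dh_pderiv]
    unfold dh
    rw [map_add, map_mul, map_mul, aeval_X, aeval_X]
    simp
  have e2 : dh ((n : MvPolynomial (Fin 2) K) * f) = (n : Polynomial K) * dh f := by
    unfold dh
    rw [map_mul, map_natCast]
  rw [e1, e2] at h
  rw [← h]
  ring

/-- forms of degree `≥ 2 m - 1` -/
theorem forms {K : Type} [Field K] [CharZero K] {m : ℕ} (hm : 1 ≤ m) {f : MvPolynomial (Fin 2) K}
    (hf : f.IsHomogeneous (m + 1)) (hd : (dh f).natDegree = m + 1)
    (hc : IsCoprime (dh f) (Polynomial.derivative (dh f))) (i j : ℕ) (hij : 2 * m ≤ i + j + 1) :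
    ∃ A B : MvPolynomial (Fin 2) K, A.totalDegree ≤ i + j - m ∧ B.totalDegree ≤ i + j - m ∧
      X 0 ^ i * X 1 ^ j = A * pderiv 0 f + B * pderiv 1 f := by
  obtain ⟨φ, hφ⟩ : ∃ φ, φ = dh f := ⟨_, rfl⟩
  obtain ⟨p, hp⟩ : ∃ p, p = dh (pderiv 0 f) := ⟨_, rfl⟩
  obtain ⟨q, hq⟩ : ∃ q, q = dh (pderiv 1 f) := ⟨_, rfl⟩
  rw [← hφ] at hd hc
  have hp' : p = Polynomial.derivative φ := by rw [hp, dh_pderiv, hφ]
  have hq' : q = ((m + 1 : ℕ) : Polynomial K) * φ - Polynomial.X * Polynomial.derivative φ := by
    rw [hq, dh_euler hf, hφ]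
  have hpd : p.natDegree = m := by
    rw [hp', Polynomial.natDegree_derivative, hd]
    omega
  have hp0 : p ≠ 0 := by
    rintro h
    rw [h] at hpd
    simp at hpd
    omega
  have hqd : q.natDegree ≤ m := by
    rw [Polynomial.natDegree_le_iff_coeff_eq_zero]
    intro k hk
    rw [hq']
    obtain ⟨k, rfl⟩ : ∃ l, k = l + 1 := ⟨k - 1, by omega⟩
    rw [Polynomial.coeff_sub, Polynomial.coeff_X_mul, Polynomial.coeff_derivative]
    rw [← Polynomial.C_eq_natCast, Polynomial.coeff_C_mul]
    rcases Nat.lt_or_ge m (k : ℕ) with h | h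
    · have : φ.coeff (k + 1) = 0 := Polynomial.coeff_eq_zero_of_natDegree_lt (by omega)
      rw [this]
      ring
    · have : k = m := by omega
      subst this
      push_cast
      ring
  have hpq : IsCoprime p q := by
    obtain ⟨a, b, hab⟩ := hc
    obtain ⟨c, hc⟩ : ∃ c : K, c * ((m + 1 : ℕ) : K) = 1 := ⟨((m + 1 : ℕ) : K)⁻¹, inv_mul_cancel₀ (by exact_mod_cast Nat.succ_ne_zero m)⟩
    refine ⟨b + Polynomial.C c * a * Polynomial.X, Polynomial.C c * a, ?_⟩
    have hc' : Polynomial.C c * ((m + 1 : ℕ) : Polynomial K) = 1 := by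
      rw [← Polynomial.C_eq_natCast, ← Polynomial.C_mul, hc, Polynomial.C_1]
    rw [hp', hq']
    linear_combination hab + (a * φ) * hc'
  obtain ⟨u, v, huv⟩ := hpq
  obtain ⟨d, hdd⟩ : ∃ d, d = i + j := ⟨_, rfl⟩
  obtain ⟨b, hb⟩ : ∃ b, b = (Polynomial.X ^ i * v) % p := ⟨_, rfl⟩
  obtain ⟨c, hcc⟩ : ∃ c, c = (Polynomial.X ^ i * v) / p := ⟨_, rfl⟩
  have hdm : p * c + b = Polynomial.X ^ i * v := by
    rw [hb, hcc]
    exact EuclideanDomain.div_add_mod _ _
  have hbd : b.natDegree < m := by
    rw [hb, ← hpd]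
    exact Polynomial.natDegree_mod_lt _ (by omega)
  obtain ⟨a, ha⟩ : ∃ a, a = Polynomial.X ^ i * u + c * q := ⟨_, rfl⟩
  have hab : a * p + b * q = Polynomial.X ^ i := by
    rw [ha]
    linear_combination Polynomial.X ^ i * huv + q * hdm
  have had : a.natDegree ≤ d - m := by
    rcases eq_or_ne a 0 with h | h
    · rw [h]
      simp
    · have h1 : (a * p).natDegree = a.natDegree + m := by
        rw [Polynomial.natDegree_mul h hp0, hpd]
      have h2 : (a * p).natDegree ≤ d := by
        rw [eq_sub_of_add_eq hab]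
        refine (Polynomial.natDegree_sub_le _ _).trans (max_le ?_ ?_)
        · rw [Polynomial.natDegree_X_pow]
          omega
        · refine Polynomial.natDegree_mul_le.trans ?_
          omega
      omega
  have hbd' : b.natDegree ≤ d - m := by omega
  have hP : p.homogenize m = pderiv 0 f :=
    Polynomial.homogenize_eq_of_isHomogeneous hf.pderiv hp.symm
  have hQ : q.homogenize m = pderiv 1 f :=
    Polynomial.homogenize_eq_of_isHomogeneous hf.pderiv hq.symm
  refine ⟨a.homogenize (d - m), b.homogenize (d - m), ?_, ?_, ?_⟩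
  · rw [← hdd]
    exact (Polynomial.isHomogeneous_homogenize a).totalDegree_le
  · rw [← hdd]
    exact (Polynomial.isHomogeneous_homogenize b).totalDegree_le
  · rw [← hP, ← hQ, ← Polynomial.homogenize_mul a p had hpd.le, ← Polynomial.homogenize_mul b q hbd' hqd,
      ← Polynomial.homogenize_add, hab]
    have : d - m + m = d := by omega
    rw [this, Polynomial.homogenize_X_pow (by omega)]
    congr 2
    omega

/-- `K[x,y]/(F_x,F_y)` has dimension at most `(2 m)^2` -/
theorem finq {K : Type} [Field K] [CharZero K] {m : ℕ} (hm : 1 ≤ m) {F f : MvPolynomial (Fin 2) K}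
    (hf : f.IsHomogeneous (m + 1)) (hd : (dh f).natDegree = m + 1)
    (hc : IsCoprime (dh f) (Polynomial.derivative (dh f)))
    (h0 : (pderiv 0 F - pderiv 0 f).totalDegree < m) (h1 : (pderiv 1 F - pderiv 1 f).totalDegree < m) :
    Module.Finite K (MvPolynomial (Fin 2) K ⧸ Ideal.span {pderiv 0 F, pderiv 1 F}) ∧
    Module.finrank K (MvPolynomial (Fin 2) K ⧸ Ideal.span {pderiv 0 F, pderiv 1 F}) ≤ (2 * m) ^ 2 := by
  classical
  obtain ⟨I, hI⟩ : ∃ I, I = Ideal.span {pderiv 0 F, pderiv 1 F} := ⟨_, rfl⟩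
  rw [← hI]
  obtain ⟨g, hg⟩ : ∃ g : Fin (2 * m) × Fin (2 * m) → MvPolynomial (Fin 2) K ⧸ I,
      g = fun u => Ideal.Quotient.mkₐ K I (X 0 ^ (u.1 : ℕ) * X 1 ^ (u.2 : ℕ)) := ⟨_, rfl⟩
  obtain ⟨W, hW⟩ : ∃ W : Submodule K (MvPolynomial (Fin 2) K ⧸ I), W = Submodule.span K (Set.range g) := ⟨_, rfl⟩
  have hmem : ∀ z ∈ I, Ideal.Quotient.mkₐ K I z = 0 := fun z hz => Ideal.Quotient.eq_zero_iff_mem.2 hz
  have hmon : ∀ d i j : ℕ, i + j = d → Ideal.Quotient.mkₐ K I (X 0 ^ i * X 1 ^ j) ∈ W := by
    intro d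
    induction d using Nat.strong_induction_on with
    | _ d ih =>
      intro i j hij
      rcases Nat.lt_or_ge (i + j + 1) (2 * m) with hlt | hge
      · rw [hW]
        refine Submodule.subset_span ⟨(⟨i, by omega⟩, ⟨j, by omega⟩), ?_⟩
        rw [hg]
      · obtain ⟨A, B, hA, hB, hAB⟩ := forms hm hf hd hc i j hge
        have hR : ∀ R : MvPolynomial (Fin 2) K, R.totalDegree < d → Ideal.Quotient.mkₐ K I R ∈ W := by
          intro R hR
          rw [R.as_sum, map_sum]
          refine Submodule.sum_mem _ (fun s hs => ?_)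
          have h2 : s 0 + s 1 < d := by
            have := le_totalDegree hs
            rw [Finsupp.sum_fintype _ _ (fun _ => rfl), Fin.sum_univ_two] at this
            omega
          have h3 : monomial s (R.coeff s) = (R.coeff s) • (X 0 ^ (s 0) * X 1 ^ (s 1)) := by
            rw [monomial_eq, Finsupp.prod_fintype _ _ (fun _ => pow_zero _), Fin.prod_univ_two, C_mul']
          rw [h3, map_smul]
          exact Submodule.smul_mem _ _ (ih _ h2 _ _ rfl)
        have e : X 0 ^ i * X 1 ^ j = (A * pderiv 0 F + B * pderiv 1 F) -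
            (A * (pderiv 0 F - pderiv 0 f) + B * (pderiv 1 F - pderiv 1 f)) := by
          rw [hAB]
          ring
        rw [e, map_sub, hmem _ ?_, zero_sub]
        · refine Submodule.neg_mem _ (hR _ ?_)
          refine lt_of_le_of_lt (totalDegree_add _ _) (max_lt ?_ ?_)
          · refine lt_of_le_of_lt (totalDegree_mul _ _) ?_
            omega
          · refine lt_of_le_of_lt (totalDegree_mul _ _) ?_
            omega
        · rw [hI]
          exact Ideal.add_mem _ (Ideal.mul_mem_left _ _ (Ideal.subset_span (by simp)))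
            (Ideal.mul_mem_left _ _ (Ideal.subset_span (by simp)))
  have htop : W = ⊤ := by
    rw [eq_top_iff]
    rintro x -
    obtain ⟨R, rfl⟩ := Ideal.Quotient.mkₐ_surjective K I x
    rw [R.as_sum, map_sum]
    refine Submodule.sum_mem _ (fun s hs => ?_)
    have h3 : monomial s (R.coeff s) = (R.coeff s) • (X 0 ^ (s 0) * X 1 ^ (s 1)) := by
      rw [monomial_eq, Finsupp.prod_fintype _ _ (fun _ => pow_zero _), Fin.prod_univ_two, C_mul']
    rw [h3, map_smul]
    exact Submodule.smul_mem _ _ (hmon _ _ _ rfl)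
  rw [htop] at hW
  have hfin : Module.Finite K (MvPolynomial (Fin 2) K ⧸ I) := by
    rw [Module.finite_def, hW]
    exact Submodule.fg_span (Set.finite_range g)
  refine ⟨hfin, ?_⟩
  have h5 := finrank_range_le_card (R := K) g
  unfold Set.finrank at h5
  rw [← hW, finrank_top] at h5
  rw [Fintype.card_prod, Fintype.card_fin] at h5
  rw [pow_two]
  exact h5

/-- `φ = f(T,1)` for an irreducible form `f` of degree `n ≥ 2` -/
theorem dh_irr {K : Type} [Field K] {n : ℕ} (hn : 2 ≤ n) {f : MvPolynomial (Fin 2) K} (hf : f.IsHomogeneous n)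
    (hi : Irreducible f) : (dh f).natDegree = n ∧ Irreducible (dh f) := by
  have hnu : ∀ (a : ℕ) (P : Polynomial K), 1 ≤ a → ¬ IsUnit (P.homogenize a) := by
    intro a P ha hu
    have h1 : IsUnit (constantCoeff (P.homogenize a)) := hu.map (constantCoeff : MvPolynomial (Fin 2) K →+* K)
    have h2 : constantCoeff (P.homogenize a) = 0 := by
      rw [constantCoeff_eq]
      apply (Polynomial.isHomogeneous_homogenize P).coeff_eq_zero
      simp
      omega
    rw [h2] at h1
    exact not_isUnit_zero h1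
  have hh : (dh f).homogenize n = f := Polynomial.homogenize_eq_of_isHomogeneous hf rfl
  have hle : (dh f).natDegree ≤ n := by
    rw [Polynomial.natDegree_le_iff_coeff_eq_zero]
    intro k hk
    unfold dh
    rw [f.as_sum, map_sum, Polynomial.finsetSum_coeff]
    refine Finset.sum_eq_zero (fun s hs => ?_)
    rw [aeval_monomial, Finsupp.prod_fintype _ _ (fun _ => pow_zero _), Fin.prod_univ_two]
    have h1 : s 0 + s 1 = n := by
      have := hf (mem_support_iff.1 hs)
      rw [Finsupp.weight_apply, Finsupp.sum_fintype _ _ (by simp), Fin.sum_univ_two] at this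
      simpa using this
    simp only [Matrix.cons_val_zero, Matrix.cons_val_one, one_pow, mul_one]
    rw [← Polynomial.C_eq_algebraMap, Polynomial.coeff_C_mul, Polynomial.coeff_X_pow, if_neg (by omega), mul_zero]
  have hnd : (dh f).natDegree = n := by
    by_contra hne
    have hlt : (dh f).natDegree ≤ n - 1 := by omega
    have h1 : f = (1 : Polynomial K).homogenize 1 * (dh f).homogenize (n - 1) := by
      rw [← Polynomial.homogenize_mul 1 (dh f) (by simp) hlt, one_mul]
      have : 1 + (n - 1) = n := by omega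
      rw [this, hh]
    rcases hi.isUnit_or_isUnit h1 with h2 | h2
    · exact hnu 1 _ le_rfl h2
    · exact hnu (n - 1) _ (by omega) h2
  refine ⟨hnd, ?_, ?_⟩
  · intro hu
    have := Polynomial.natDegree_eq_zero_of_isUnit hu
    omega
  · intro a b hab
    have hne : dh f ≠ 0 := by
      intro h0
      rw [h0] at hnd
      simp at hnd
      omega
    have ha : a ≠ 0 := by
      rintro rfl
      exact hne (by rw [hab, zero_mul])
    have hb : b ≠ 0 := by
      rintro rfl
      exact hne (by rw [hab, mul_zero])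
    have hdeg : a.natDegree + b.natDegree = n := by
      rw [← hnd, hab, Polynomial.natDegree_mul ha hb]
    have h1 : f = a.homogenize a.natDegree * b.homogenize b.natDegree := by
      rw [← Polynomial.homogenize_mul a b le_rfl le_rfl, hdeg, ← hab, hh]
    rcases hi.isUnit_or_isUnit h1 with h2 | h2
    · left
      have : a.natDegree = 0 := by
        by_contra h
        exact hnu _ _ (by omega) h2
      exact Polynomial.isUnit_iff_degree_eq_zero.2 (Polynomial.degree_eq_iff_natDegree_eq ha |>.2 this)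
    · right
      have : b.natDegree = 0 := by
        by_contra h
        exact hnu _ _ (by omega) h2
      exact Polynomial.isUnit_iff_degree_eq_zero.2 (Polynomial.degree_eq_iff_natDegree_eq hb |>.2 this)

theorem dh_map {K L : Type} [CommRing K] [CommRing L] (g : K →+* L) (G : MvPolynomial (Fin 2) K) :
    dh (map g G) = (dh G).map g := by
  unfold dh
  rw [G.as_sum, map_sum, map_sum, map_sum, Polynomial.map_sum]
  refine Finset.sum_congr rfl (fun s _ => ?_)
  rw [map_monomial, aeval_monomial, aeval_monomial, Finsupp.prod_fintype _ _ (fun _ => pow_zero _),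
    Finsupp.prod_fintype _ _ (fun _ => pow_zero _), Fin.prod_univ_two, Fin.prod_univ_two]
  simp

theorem hc_map {k l : Type} [CommRing k] [CommRing l] (f : k →+* l) (n : ℕ)
    (F : MvPolynomial (Fin 2) k) :
    homogeneousComponent n (map f F) = map f (homogeneousComponent n F) := by
  ext m
  rw [coeff_homogeneousComponent, coeff_map, coeff_map, coeff_homogeneousComponent]
  split_ifs
  · rfl
  · rw [map_zero]

theorem td_pderiv {K : Type} [CommRing K] (G : MvPolynomial (Fin 2) K) (i : Fin 2) :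
    (pderiv i G).totalDegree ≤ G.totalDegree - 1 := by
  have h1 : pderiv i G = ∑ s ∈ G.support, pderiv i (monomial s (G.coeff s)) := by
    conv_lhs => rw [G.as_sum]
    rw [map_sum]
  rw [h1]
  refine totalDegree_finsetSum_le (fun s hs => ?_)
  rw [pderiv_monomial]
  rcases Nat.eq_zero_or_pos (s i) with h | h
  · rw [h]
    simp
  · refine (totalDegree_monomial_le _ _).trans ?_
    have h2 := le_totalDegree hs
    have h3 : (s - Finsupp.single i 1) + Finsupp.single i 1 = s :=
      tsub_add_cancel_of_le (Finsupp.single_le_iff.2 h)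
    have h4 : (s.sum fun _ e => e) = ((s - Finsupp.single i 1).sum fun _ e => e) + 1 := by
      conv_lhs => rw [← h3]
      rw [Finsupp.sum_add_index' (fun _ => rfl) (fun _ _ _ => rfl), Finsupp.sum_single_index rfl]
    rw [h4] at h2
    show ((s - Finsupp.single i 1).sum fun _ e => e) ≤ _
    omega

theorem td_low {K : Type} [CommRing K] {m : ℕ} (G : MvPolynomial (Fin 2) K) (hG : G.totalDegree ≤ m + 1) :
    (G - homogeneousComponent (m + 1) G).totalDegree ≤ m := by
  refine Finset.sup_le (fun s hs => ?_)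
  rw [mem_support_iff, coeff_sub, coeff_homogeneousComponent] at hs
  have hd : s.degree = s.sum fun _ e => e := rfl
  by_contra hlt
  push Not at hlt
  by_cases h : s.degree = m + 1
  · rw [if_pos h, sub_self] at hs
    exact hs rfl
  · rw [if_neg h, sub_zero] at hs
    have := le_totalDegree (mem_support_iff.2 hs)
    omega

/-- **[SNG]** the constant terms of the singular members -/
theorem sng {n : ℕ} (hn : 2 ≤ n) (F : MvPolynomial (Fin 2) ℤ) (hF : F.totalDegree ≤ n)
    (hi : Irreducible (map (Int.castRingHom ℚ) (homogeneousComponent n F))) :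
    {τ : ℤ | ∃ a b : ℂ, aeval ![a, b] (F + C τ) = 0 ∧ aeval ![a, b] (pderiv 0 F) = 0 ∧
      aeval ![a, b] (pderiv 1 F) = 0}.encard ≤ ((2 * n) ^ 2 : ℕ) := by
  classical
  obtain ⟨m, rfl⟩ : ∃ m, n = m + 1 := ⟨n - 1, by omega⟩
  obtain ⟨Fc, hFc⟩ : ∃ Fc, Fc = map (Int.castRingHom ℂ) F := ⟨_, rfl⟩
  obtain ⟨f, hfd⟩ : ∃ f, f = homogeneousComponent (m + 1) Fc := ⟨_, rfl⟩
  have hf : f.IsHomogeneous (m + 1) := by
    rw [hfd]
    exact homogeneousComponent_isHomogeneous _ _
  have hfq : (map (Int.castRingHom ℚ) (homogeneousComponent (m + 1) F)).IsHomogeneous (m + 1) :=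
    (homogeneousComponent_isHomogeneous _ _).map _
  obtain ⟨hdq, hiq⟩ := dh_irr hn hfq hi
  have hff : dh f = (dh (map (Int.castRingHom ℚ) (homogeneousComponent (m + 1) F))).map (algebraMap ℚ ℂ) := by
    rw [← dh_map, map_map, hfd, hFc, hc_map]
    congr 2
  have hd : (dh f).natDegree = m + 1 := by
    rw [hff, Polynomial.natDegree_map, hdq]
  have hc : IsCoprime (dh f) (Polynomial.derivative (dh f)) := by
    rw [hff]
    exact hiq.separable.map
  have hFt : Fc.totalDegree ≤ m + 1 := by
    rw [hFc]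
    exact (Finset.sup_mono (support_map_subset _ _)).trans hF
  have hlow := td_low Fc hFt
  rw [← hfd] at hlow
  have hpd : ∀ i, (pderiv i Fc - pderiv i f).totalDegree < m := by
    intro i
    rw [← map_sub]
    refine lt_of_le_of_lt (td_pderiv _ i) ?_
    omega
  obtain ⟨hfin, hrk⟩ := finq (by omega : 1 ≤ m) hf hd hc (hpd 0) (hpd 1)
  obtain ⟨I, hI⟩ : ∃ I, I = Ideal.span {pderiv 0 Fc, pderiv 1 Fc} := ⟨_, rfl⟩
  rw [← hI] at hfin hrk
  obtain ⟨x, hx⟩ : ∃ x, x = Ideal.Quotient.mkₐ ℂ I Fc := ⟨_, rfl⟩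
  have hint : IsIntegral ℂ x := Algebra.IsIntegral.isIntegral x
  obtain ⟨μ, hμ⟩ : ∃ μ, μ = minpoly ℂ x := ⟨_, rfl⟩
  have hμ0 : μ ≠ 0 := by
    rw [hμ]
    exact minpoly.ne_zero hint
  have hμd : μ.natDegree ≤ (2 * m) ^ 2 := by
    rw [hμ]
    exact (minpoly.natDegree_le x).trans hrk
  have hμI : Polynomial.aeval Fc μ ∈ I := by
    have h1 : Polynomial.aeval x μ = 0 := by
      rw [hμ]
      exact minpoly.aeval ℂ x
    rw [hx, Polynomial.aeval_algHom_apply] at h1
    exact Ideal.Quotient.eq_zero_iff_mem.1 h1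
  have hev : ∀ (a b : ℂ) (G : MvPolynomial (Fin 2) ℤ),
      aeval ![a, b] G = aeval ![a, b] (map (Int.castRingHom ℂ) G) := by
    intro a b G
    rw [aeval_def, aeval_def, eval₂_map]
    congr 1
  have hsub : {τ : ℤ | ∃ a b : ℂ, aeval ![a, b] (F + C τ) = 0 ∧ aeval ![a, b] (pderiv 0 F) = 0 ∧
      aeval ![a, b] (pderiv 1 F) = 0} ⊆ (fun τ : ℤ => -(τ : ℂ)) ⁻¹' (μ.roots.toFinset : Set ℂ) := by
    rintro τ ⟨a, b, h1, h2, h3⟩
    rw [hev, ← pderiv_map, ← hFc] at h2 h3
    have hz : ∀ z ∈ I, aeval ![a, b] z = 0 := by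
      intro z hz
      rw [hI, Ideal.mem_span_pair] at hz
      obtain ⟨A, B, rfl⟩ := hz
      rw [map_add, map_mul, map_mul, h2, h3, mul_zero, mul_zero, add_zero]
    have h4 := hz _ hμI
    rw [← Polynomial.aeval_algHom_apply] at h4
    have h5 : aeval ![a, b] Fc = -(τ : ℂ) := by
      rw [hev, map_add, map_add, ← hFc, map_C, aeval_C] at h1
      have : (algebraMap ℂ ℂ) ((Int.castRingHom ℂ) τ) = (τ : ℂ) := rfl
      rw [this] at h1
      exact eq_neg_of_add_eq_zero_left h1
    rw [h5] at h4
    rw [Set.mem_preimage, Finset.mem_coe, Multiset.mem_toFinset, Polynomial.mem_roots hμ0, Polynomial.IsRoot.def]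
    rw [← Polynomial.coe_aeval_eq_eval]
    exact h4
  have hinj : Function.Injective (fun τ : ℤ => -(τ : ℂ)) := by
    intro s t h
    have := neg_injective h
    exact_mod_cast this
  refine (Set.encard_le_encard hsub).trans ?_
  have h6 : ((fun τ : ℤ => -(τ : ℂ)) ⁻¹' (μ.roots.toFinset : Set ℂ)).encard ≤
      (μ.roots.toFinset : Set ℂ).encard := by
    rw [← hinj.encard_image]
    exact Set.encard_le_encard (Set.image_preimage_subset _ _)
  refine h6.trans ?_
  rw [Set.encard_coe_eq_coe_finsetCard]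
  have h7 : μ.roots.toFinset.card ≤ (2 * (m + 1)) ^ 2 := by
    refine (Multiset.toFinset_card_le _).trans ((Polynomial.card_roots' μ).trans (hμd.trans ?_))
    exact Nat.pow_le_pow_left (by omega) 2
  exact_mod_cast h7

end Pool.Agent.H2.AA
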