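import Mathlib

/-! # [H2 AA SPN] The part of degree `n-1` is a combination of the partial derivatives of the leading form

`f = ∑ a_j x^(n-j) y^j`, `g = ∑ b_j x^(n-1-j) y^j`; `g = w_0 f_x + w_1 f_y` iff `b_j = w_0 (n-j) a_j + w_1 (j+1) a_(j+1)`.
If `n^2 a_0 a_n ≠ a_1 a_(n-1)`, `b_0` and `b_(n-1)` determine `w` and `g`. -/

namespace Pool.Agent.H2.AA

open MvPolynomial

/-- the exponent `(i,j)` -/
noncomputable def ex (i j : ℕ) : Fin 2 →₀ ℕ := Finsupp.single 0 i + Finsupp.single 1 j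

theorem ex_zero (i j : ℕ) : ex i j 0 = i := by simp [ex]

theorem ex_one (i j : ℕ) : ex i j 1 = j := by simp [ex]

theorem ex_degree (i j : ℕ) : (ex i j).degree = i + j := by
  rw [Finsupp.degree_eq_sum, Fin.sum_univ_two, ex_zero, ex_one]

theorem ex_inj {i j k l : ℕ} (h : ex i j = ex k l) : i = k ∧ j = l := by
  have h0 := DFunLike.congr_fun h 0
  have h1 := DFunLike.congr_fun h 1
  rw [ex_zero, ex_zero] at h0
  rw [ex_one, ex_one] at h1
  exact ⟨h0, h1⟩

/-- the linear relations -/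
theorem span_rel {n : ℕ} (hn : 1 ≤ n) (F : MvPolynomial (Fin 2) ℤ) (w : Fin 2 → ℚ)
    (h : map (Int.castRingHom ℚ) (homogeneousComponent (n - 1) F) =
      ∑ i, C (w i) * pderiv i (map (Int.castRingHom ℚ) (homogeneousComponent n F))) (j : ℕ) (hj : j < n) :
    ((F.coeff (ex (n - 1 - j) j) : ℤ) : ℚ) = w 0 * ((n - j : ℕ) * (F.coeff (ex (n - j) j) : ℤ)) +
      w 1 * ((j + 1 : ℕ) * (F.coeff (ex (n - 1 - j) (j + 1)) : ℤ)) := by
  have h1 := congrArg (coeff (ex (n - 1 - j) j)) h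
  rw [coeff_map, coeff_homogeneousComponent, if_pos (by rw [ex_degree]; omega), Fin.sum_univ_two, coeff_add,
    coeff_C_mul, coeff_C_mul, coeff_pderiv, coeff_pderiv, coeff_map, coeff_map] at h1
  have e0 : ex (n - 1 - j) j + Finsupp.single 0 1 = ex (n - j) j := by
    have : n - j = (n - 1 - j) + 1 := by omega
    rw [this]
    ext i
    fin_cases i <;> simp [ex]
  have e1 : ex (n - 1 - j) j + Finsupp.single 1 1 = ex (n - 1 - j) (j + 1) := by
    ext i
    fin_cases i <;> simp [ex]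
  rw [e0, e1, coeff_homogeneousComponent, coeff_homogeneousComponent,
    if_pos (by rw [ex_degree]; omega), if_pos (by rw [ex_degree]; omega), ex_zero, ex_one] at h1
  have e2 : ((Int.castRingHom ℚ) (F.coeff (ex (n - 1 - j) j))) = ((F.coeff (ex (n - 1 - j) j) : ℤ) : ℚ) := rfl
  rw [e2] at h1
  rw [h1]
  have e3 : ((n - j : ℕ) : ℚ) = ((n - 1 - j : ℕ) : ℚ) + 1 := by
    have : n - j = (n - 1 - j) + 1 := by omega
    rw [this]
    push_cast
    rfl
  rw [e3]
  push_cast
  simp only [eq_intCast]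
  ring

/-- the box with one coordinate forgotten -/
theorem box_one {ι : Type} [Fintype ι] [DecidableEq ι] (H : ℕ) (i₀ : ι) :
    (Fintype.piFinset (fun i => if i = i₀ then ({0} : Finset ℤ) else Finset.Icc (-(H : ℤ)) H)).card =
      (2 * H + 1) ^ (Fintype.card ι - 1) := by
  have h1 : (Finset.Icc (-(H : ℤ)) H).card = 2 * H + 1 := by
    rw [Int.card_Icc]
    omega
  rw [Fintype.card_piFinset, ← Finset.mul_prod_erase Finset.univ _ (Finset.mem_univ i₀), if_pos rfl,
    Finset.card_singleton, one_mul]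
  rw [Finset.prod_congr rfl (fun i hi => by rw [if_neg (Finset.ne_of_mem_erase hi), h1] :
    ∀ i ∈ Finset.univ.erase i₀, _ = 2 * H + 1), Finset.prod_const, Finset.card_erase_of_mem (Finset.mem_univ _),
    Finset.card_univ]

/-- a set of vectors in the box, determined by the other coordinates -/
theorem det_one {ι : Type} [Fintype ι] [DecidableEq ι] (H : ℕ) (i₀ : ι) (T : Finset (ι → ℤ))
    (hT : ∀ c ∈ T, ∀ i, |c i| ≤ (H : ℤ)) (hdet : ∀ c ∈ T, ∀ d ∈ T, (∀ i, i ≠ i₀ → c i = d i) → c i₀ = d i₀) :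
    T.card ≤ (2 * H + 1) ^ (Fintype.card ι - 1) := by
  rw [← box_one H i₀]
  refine Finset.card_le_card_of_injOn (fun c i => if i = i₀ then 0 else c i) ?_ ?_
  · intro c hc
    rw [Finset.mem_coe, Fintype.mem_piFinset]
    intro i
    by_cases h : i = i₀
    · simp [h]
    · simp only [h, if_false]
      rw [Finset.mem_Icc]
      exact abs_le.1 (hT c hc i)
  · intro c hc d hd hcd
    have h1 : ∀ i, i ≠ i₀ → c i = d i := by
      intro i hi
      have := congrFun hcd i
      simpa [hi] using this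
    funext i
    by_cases h : i = i₀
    · rw [h]
      exact hdet c hc d hd h1
    · exact h1 i h

/-- **[SPN]** the number of `(a,b)` with the linear relations -/
theorem span_count (n : ℕ) (hn : 3 ≤ n) (H : ℕ) (T : Finset (Fin (n + 1) ⊕ Fin n → ℤ))
    (hT : ∀ c ∈ T, ∀ i, |c i| ≤ (H : ℤ)) (hw : ∀ c ∈ T, ∃ w0 w1 : ℚ, ∀ j : Fin n,
      (c (Sum.inr j) : ℚ) = w0 * ((n - j : ℕ) * c (Sum.inl j.castSucc)) + w1 * ((j + 1 : ℕ) * c (Sum.inl j.succ))) :
    T.card ≤ 3 * (2 * H + 1) ^ (2 * n) := by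
  classical
  obtain ⟨z, hz⟩ : ∃ z : Fin (n + 1), z = 0 := ⟨_, rfl⟩
  obtain ⟨l, hl⟩ : ∃ l : Fin (n + 1), l = Fin.last n := ⟨_, rfl⟩
  obtain ⟨o, ho⟩ : ∃ o : Fin (n + 1), o = ⟨1, by omega⟩ := ⟨_, rfl⟩
  obtain ⟨k, hk⟩ : ∃ k : Fin (n + 1), k = ⟨n - 1, by omega⟩ := ⟨_, rfl⟩
  have hzo : z ≠ l := by
    rw [hz, hl]
    intro h
    have := congrArg Fin.val h
    simp at this
    omega
  have hcard : Fintype.card (Fin (n + 1) ⊕ Fin n) - 1 = 2 * n := by
    rw [Fintype.card_sum, Fintype.card_fin, Fintype.card_fin]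
    omega
  obtain ⟨T1, hT1⟩ : ∃ T1, T1 = T.filter (fun c => c (Sum.inl z) = 0) := ⟨_, rfl⟩
  obtain ⟨T2, hT2⟩ : ∃ T2, T2 = T.filter (fun c => c (Sum.inl z) ≠ 0 ∧
    (n : ℤ) ^ 2 * c (Sum.inl z) * c (Sum.inl l) = c (Sum.inl o) * c (Sum.inl k)) := ⟨_, rfl⟩
  obtain ⟨T3, hT3⟩ : ∃ T3, T3 = T.filter (fun c =>
    (n : ℤ) ^ 2 * c (Sum.inl z) * c (Sum.inl l) ≠ c (Sum.inl o) * c (Sum.inl k)) := ⟨_, rfl⟩
  have hsub : T ⊆ T1 ∪ (T2 ∪ T3) := by
    intro c hc
    rw [Finset.mem_union, Finset.mem_union, hT1, hT2, hT3, Finset.mem_filter, Finset.mem_filter, Finset.mem_filter]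
    by_cases h1 : c (Sum.inl z) = 0
    · exact Or.inl ⟨hc, h1⟩
    · by_cases h2 : (n : ℤ) ^ 2 * c (Sum.inl z) * c (Sum.inl l) = c (Sum.inl o) * c (Sum.inl k)
      · exact Or.inr (Or.inl ⟨hc, h1, h2⟩)
      · exact Or.inr (Or.inr ⟨hc, h2⟩)
  have c1 : T1.card ≤ (2 * H + 1) ^ (2 * n) := by
    rw [← hcard]
    refine det_one H (Sum.inl z) T1 (fun c hc => hT c ?_) ?_
    · rw [hT1] at hc
      exact (Finset.mem_filter.1 hc).1
    · intro c hc d hd _
      rw [hT1] at hc hd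
      rw [(Finset.mem_filter.1 hc).2, (Finset.mem_filter.1 hd).2]
  have c2 : T2.card ≤ (2 * H + 1) ^ (2 * n) := by
    rw [← hcard]
    refine det_one H (Sum.inl l) T2 (fun c hc => hT c ?_) ?_
    · rw [hT2] at hc
      exact (Finset.mem_filter.1 hc).1
    · intro c hc d hd hcd
      rw [hT2] at hc hd
      obtain ⟨_, hc0, hc1⟩ := Finset.mem_filter.1 hc
      obtain ⟨_, hd0, hd1⟩ := Finset.mem_filter.1 hd
      have e1 : c (Sum.inl z) = d (Sum.inl z) := hcd _ (fun h => hzo (Sum.inl_injective h))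
      have e2 : c (Sum.inl o) = d (Sum.inl o) := by
        refine hcd _ (fun h => ?_)
        have := congrArg Fin.val (Sum.inl_injective h)
        rw [ho, hl] at this
        simp at this
        omega
      have e3 : c (Sum.inl k) = d (Sum.inl k) := by
        refine hcd _ (fun h => ?_)
        have := congrArg Fin.val (Sum.inl_injective h)
        rw [hk, hl] at this
        simp at this
        omega
      rw [← e1, ← e2, ← e3, ← hc1] at hd1
      have h4 : (n : ℤ) ^ 2 * c (Sum.inl z) ≠ 0 := by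
        refine mul_ne_zero (pow_ne_zero _ ?_) hc0
        exact_mod_cast (by omega : n ≠ 0)
      exact (mul_left_cancel₀ h4 hd1).symm
  have c3 : T3.card ≤ (2 * H + 1) ^ (2 * n) := by
    obtain ⟨j0, hj0⟩ : ∃ j0 : Fin n, j0 = ⟨0, by omega⟩ := ⟨_, rfl⟩
    obtain ⟨j1, hj1⟩ : ∃ j1 : Fin n, j1 = ⟨1, by omega⟩ := ⟨_, rfl⟩
    obtain ⟨j2, hj2⟩ : ∃ j2 : Fin n, j2 = ⟨n - 1, by omega⟩ := ⟨_, rfl⟩
    have s0 : j0.castSucc = z := by
      rw [hj0, hz]
      rfl
    have s1 : j0.succ = o := by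
      rw [hj0, ho]
      rfl
    have s2 : j2.castSucc = k := by
      rw [hj2, hk]
      rfl
    have s3 : j2.succ = l := by
      rw [hj2, hl]
      apply Fin.ext
      simp
      omega
    have n0 : j0 ≠ j1 := by
      rw [hj0, hj1]
      intro h
      have := congrArg Fin.val h
      simp at this
    have n2 : j2 ≠ j1 := by
      rw [hj2, hj1]
      intro h
      have := congrArg Fin.val h
      simp at this
      omega
    have v0 : (j0 : ℕ) = 0 := by rw [hj0]
    have v2 : (j2 : ℕ) = n - 1 := by rw [hj2]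
    rw [← hcard]
    refine det_one H (Sum.inr j1) T3 (fun c hc => hT c ?_) ?_
    · rw [hT3] at hc
      exact (Finset.mem_filter.1 hc).1
    · intro c hc d hd hcd
      rw [hT3] at hc hd
      obtain ⟨hcT, hc1⟩ := Finset.mem_filter.1 hc
      obtain ⟨hdT, hd1⟩ := Finset.mem_filter.1 hd
      have hl' : ∀ i : Fin (n + 1), c (Sum.inl i) = d (Sum.inl i) := fun i => hcd _ (by simp)
      have hb0 : c (Sum.inr j0) = d (Sum.inr j0) := hcd _ (fun h => n0 (Sum.inr_injective h))
      have hb2 : c (Sum.inr j2) = d (Sum.inr j2) := hcd _ (fun h => n2 (Sum.inr_injective h))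
      obtain ⟨u0, u1, hu⟩ := hw c hcT
      obtain ⟨w0, w1, hv⟩ := hw d hdT
      have e0 := hu j0
      have e2 := hu j2
      have f0 := hv j0
      have f2 := hv j2
      have g1 := hu j1
      have g2 := hv j1
      rw [← hl', ← hl'] at f0 f2 g2
      rw [← hb0] at f0
      rw [← hb2] at f2
      rw [s0, s1, v0] at e0 f0
      rw [s2, s3, v2] at e2 f2
      have hn0 : ((n - 0 : ℕ) : ℚ) = (n : ℚ) := by rw [Nat.sub_zero]
      have hn2 : ((n - (n - 1) : ℕ) : ℚ) = 1 := by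
        have : n - (n - 1) = 1 := by omega
        rw [this]
        norm_num
      have hn3 : ((n - 1 + 1 : ℕ) : ℚ) = (n : ℚ) := by
        have : n - 1 + 1 = n := by omega
        rw [this]
      rw [hn0] at e0 f0
      rw [hn2, hn3] at e2 f2
      have hD : (n : ℚ) ^ 2 * c (Sum.inl z) * c (Sum.inl l) - c (Sum.inl o) * c (Sum.inl k) ≠ 0 := by
        intro h
        apply hc1
        have := sub_eq_zero.1 h
        exact_mod_cast this
      have hu0 : u0 = w0 := by
        have : (u0 - w0) * ((n : ℚ) ^ 2 * c (Sum.inl z) * c (Sum.inl l) - c (Sum.inl o) * c (Sum.inl k)) = 0 := by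
          push_cast at e0 f0
          linear_combination (n * (c (Sum.inl l) : ℚ)) * (f0 - e0) - (c (Sum.inl o) : ℚ) * (f2 - e2)
        rcases mul_eq_zero.1 this with h | h
        · exact sub_eq_zero.1 h
        · exact absurd h hD
      have hu1 : u1 = w1 := by
        have : (u1 - w1) * ((n : ℚ) ^ 2 * c (Sum.inl z) * c (Sum.inl l) - c (Sum.inl o) * c (Sum.inl k)) = 0 := by
          push_cast at e0 f0
          linear_combination (n * (c (Sum.inl z) : ℚ)) * (f2 - e2) - (c (Sum.inl k) : ℚ) * (f0 - e0)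
        rcases mul_eq_zero.1 this with h | h
        · exact sub_eq_zero.1 h
        · exact absurd h hD
      rw [← hu0, ← hu1, ← g1] at g2
      exact_mod_cast g2.symm
  calc T.card ≤ (T1 ∪ (T2 ∪ T3)).card := Finset.card_le_card hsub
    _ ≤ T1.card + (T2.card + T3.card) :=
        (Finset.card_union_le _ _).trans (Nat.add_le_add_left (Finset.card_union_le _ _) _)
    _ ≤ 3 * (2 * H + 1) ^ (2 * n) := by omega

end Pool.Agent.H2.AA
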